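import Pool.Agent.Helper69.KC.Base2

/-!
Packet B3M of MP_ec852d_co: the main case of the weighted inequality when the edge 13 has the
least multiplicity in the right four-cycle.
-/

set_option autoImplicit false

namespace Pool.Agent.Helper69.KC

namespace B3M

/-- contribution of the row `g` to the column `j` -/
def tt (m : Fin 20 → ℕ) (x : Fin 20 → Fin 20 → ZMod 2) (g j : Fin 20) : ℤ :=
  if x g j = 1 then (m g : ℤ) else 0

/-- the weight of the column `j` -/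
def WW (m : Fin 20 → ℕ) (x : Fin 20 → Fin 20 → ZMod 2) (j : Fin 20) : ℤ :=
  tt m x 0 j + tt m x 1 j + tt m x 2 j + tt m x 3 j + tt m x 4 j + tt m x 5 j + tt m x 6 j +
    tt m x 7 j + tt m x 8 j

lemma tt_nonneg (m : Fin 20 → ℕ) (x : Fin 20 → Fin 20 → ZMod 2) (g j : Fin 20) :
    0 ≤ tt m x g j := by
  unfold tt
  split_ifs
  · exact Int.natCast_nonneg _
  · exact le_rfl

lemma tt_one (m : Fin 20 → ℕ) (x : Fin 20 → Fin 20 → ZMod 2) {g j : Fin 20} (h : x g j = 1) :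
    tt m x g j = m g := by
  unfold tt
  rw [if_pos h]

lemma Yw_inner (m : Fin 20 → ℕ) (x : Fin 20 → Fin 20 → ZMod 2) (h : Fin 20) :
    ((∑ g : Fin 20, if g.val ≤ 8 ∧ 9 ≤ h.val ∧ h.val ≤ 16 ∧ x g h = 1 then m g * m h else 0 : ℕ) :
      ℤ) = if 9 ≤ h.val ∧ h.val ≤ 16 then (m h : ℤ) * WW m x h else 0 := by
  split_ifs with hh
  · rw [Nat.cast_sum]
    have : ∀ g : Fin 20, ((if g.val ≤ 8 ∧ 9 ≤ h.val ∧ h.val ≤ 16 ∧ x g h = 1 then m g * m h
        else 0 : ℕ) : ℤ) = (m h : ℤ) * (if g.val ≤ 8 then tt m x g h else 0) := by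
      intro g
      unfold tt
      by_cases h1 : g.val ≤ 8 <;> by_cases h2 : x g h = 1 <;> simp [h1, h2, hh, mul_comm]
    rw [Finset.sum_congr rfl (fun g _ => this g), ← Finset.mul_sum]
    congr 1
    simp [Fin.sum_univ_succ, WW]
    ring
  · rw [Nat.cast_eq_zero]
    apply Finset.sum_eq_zero
    intro g _
    rw [if_neg]
    tauto

lemma Yw_eq (m : Fin 20 → ℕ) (x : Fin 20 → Fin 20 → ZMod 2) :
    (Yw m x : ℤ) = m 9 * WW m x 9 + m 10 * WW m x 10 + m 11 * WW m x 11 + m 12 * WW m x 12 +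
      m 13 * WW m x 13 + m 14 * WW m x 14 + m 15 * WW m x 15 + m 16 * WW m x 16 := by
  unfold Yw
  rw [Nat.cast_sum, Finset.sum_congr rfl (fun h _ => Yw_inner m x h)]
  simp [Fin.sum_univ_succ]
  ring

/-! ### Finite facts -/

lemma zmod2_cases (a : ZMod 2) : a = 0 ∨ a = 1 := by
  revert a; decide

lemma cut_exists : ∀ a0 a1 a2 a3 a4 a5 : ZMod 2, a0 ≠ a1 → ∃ S ∈ Cuts, ∀ g ∈ S, g.val ≤ 8 ∧
    (![a0, a1, a2, a3, a4, a5, 0, 0, 0, 0, 0, 0] : Fin 12 → ZMod 2) (src g) ≠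
      (![a0, a1, a2, a3, a4, a5, 0, 0, 0, 0, 0, 0] : Fin 12 → ZMod 2) (tgt g) := by
  decide +kernel

lemma cut_bound (m : Fin 20 → ℕ) (kD : Fin 12 → ZMod 2) (hD : kD 0 ≠ kD 1) (lam : ℤ)
    (hlam : ∀ S ∈ Cuts, lam ≤ ((S.map m).sum : ℤ)) (N : Fin 20 → ℤ)
    (hN : ∀ g : Fin 20, g.val ≤ 8 → (if kD (src g) ≠ kD (tgt g) then (m g : ℤ) else 0) ≤ N g) :
    lam ≤ N 0 + N 1 + N 2 + N 3 + N 4 + N 5 + N 6 + N 7 + N 8 := by
  obtain ⟨S, hS, hS2⟩ := cut_exists (kD 0) (kD 1) (kD 2) (kD 3) (kD 4) (kD 5) hD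
  have key : ∀ g ∈ S, (m g : ℤ) ≤ N g := by
    intro g hg
    obtain ⟨h1, h2⟩ := hS2 g hg
    have h3 := hN g h1
    rw [if_pos] at h3
    · exact h3
    · intro h4
      apply h2
      have : ∀ g : Fin 20, g.val ≤ 8 →
        ((![kD 0, kD 1, kD 2, kD 3, kD 4, kD 5, 0, 0, 0, 0, 0, 0] : Fin 12 → ZMod 2) (src g) =
          kD (src g)) ∧
        ((![kD 0, kD 1, kD 2, kD 3, kD 4, kD 5, 0, 0, 0, 0, 0, 0] : Fin 12 → ZMod 2) (tgt g) =
          kD (tgt g)) := by
        intro g hg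
        fin_cases g <;> first | (exact ⟨rfl, rfl⟩) | (simp at hg)
      rw [(this g h1).1, (this g h1).2, h4]
  have h0 : ∀ g : Fin 20, g.val ≤ 8 → 0 ≤ N g := by
    intro g hg
    refine le_trans ?_ (hN g hg)
    split_ifs
    · exact Int.natCast_nonneg _
    · exact le_rfl
  have a0 := h0 0 (by decide)
  have a1 := h0 1 (by decide)
  have a2 := h0 2 (by decide)
  have a3 := h0 3 (by decide)
  have a4 := h0 4 (by decide)
  have a5 := h0 5 (by decide)
  have a6 := h0 6 (by decide)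
  have a7 := h0 7 (by decide)
  have a8 := h0 8 (by decide)
  have hl := hlam S hS
  simp only [Cuts, List.mem_cons, List.not_mem_nil, or_false] at hS
  rcases hS with rfl | rfl | rfl | rfl | rfl | rfl | rfl | rfl | rfl | rfl | rfl <;>
  · simp only [List.mem_cons, List.not_mem_nil, or_false, forall_eq_or_imp, forall_eq] at key
    simp only [List.map_cons, List.map_nil, List.sum_cons, List.sum_nil] at hl
    push_cast at hl
    linarith

lemma col_odd : ∀ a b c d : ZMod 2, a + b + c + d ≠ 0 → a = 1 ∨ b = 1 ∨ c = 1 ∨ d = 1 := by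
  decide

lemma row_even : ∀ a b c d : ZMod 2, a + b + c + d = 0 →
    (a = 0 ∧ b = 0 ∧ c = 0 ∧ d = 0) ∨ (a = 1 ∧ b = 1) ∨ (a = 1 ∧ c = 1) ∨ (a = 1 ∧ d = 1) ∨
    (b = 1 ∧ c = 1) ∨ (b = 1 ∧ d = 1) ∨ (c = 1 ∧ d = 1) := by
  decide

/-- the weight of a row in the four columns 13, ..., 16 -/
def NN (m : Fin 20 → ℕ) (x : Fin 20 → Fin 20 → ZMod 2) (g : Fin 20) : ℤ :=
  tt m x g 13 + tt m x g 14 + tt m x g 15 + tt m x g 16

lemma NN_ge (m : Fin 20 → ℕ) (x : Fin 20 → Fin 20 → ZMod 2) (g : Fin 20)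
    (h : x g 13 + x g 14 + x g 15 + x g 16 ≠ 0) : (m g : ℤ) ≤ NN m x g := by
  have h1 := tt_nonneg m x g 13
  have h2 := tt_nonneg m x g 14
  have h3 := tt_nonneg m x g 15
  have h4 := tt_nonneg m x g 16
  unfold NN
  rcases col_odd _ _ _ _ h with h | h | h | h
  · have := tt_one m x h; linarith
  · have := tt_one m x h; linarith
  · have := tt_one m x h; linarith
  · have := tt_one m x h; linarith

lemma NN_nonneg (m : Fin 20 → ℕ) (x : Fin 20 → Fin 20 → ZMod 2) (g : Fin 20) :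
    0 ≤ NN m x g := by
  have h1 := tt_nonneg m x g 13
  have h2 := tt_nonneg m x g 14
  have h3 := tt_nonneg m x g 15
  have h4 := tt_nonneg m x g 16
  unfold NN
  linarith

lemma sum_WW (m : Fin 20 → ℕ) (x : Fin 20 → Fin 20 → ZMod 2) :
    WW m x 13 + WW m x 14 + WW m x 15 + WW m x 16 =
      NN m x 0 + NN m x 1 + NN m x 2 + NN m x 3 + NN m x 4 + NN m x 5 + NN m x 6 + NN m x 7 +
        NN m x 8 := by
  unfold WW NN
  ring

/-- a row which has two ones: the excess over the parity contribution is at least `2 m g` -/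
lemma NN_two (m : Fin 20 → ℕ) (x : Fin 20 → Fin 20 → ZMod 2) (g : Fin 20)
    (h : (x g 13 = 1 ∧ x g 14 = 1) ∨ (x g 13 = 1 ∧ x g 15 = 1) ∨ (x g 13 = 1 ∧ x g 16 = 1) ∨
      (x g 14 = 1 ∧ x g 15 = 1) ∨ (x g 14 = 1 ∧ x g 16 = 1) ∨ (x g 15 = 1 ∧ x g 16 = 1)) :
    (if x g 13 + x g 14 + x g 15 + x g 16 ≠ 0 then (m g : ℤ) else 0) + 2 * m g ≤ NN m x g := by
  have hm : (0 : ℤ) ≤ m g := Int.natCast_nonneg _
  have e11 : (1 : ZMod 2) + 1 = 0 := by decide
  unfold NN tt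
  rcases zmod2_cases (x g 13) with h1 | h1 <;> rcases zmod2_cases (x g 14) with h2 | h2 <;>
  rcases zmod2_cases (x g 15) with h3 | h3 <;> rcases zmod2_cases (x g 16) with h4 | h4 <;>
  rw [h1, h2, h3, h4] at h ⊢ <;> revert h <;> simp [e11] <;> linarith

/-! ### Arithmetic -/

lemma KL {H M3 μ cR h c : ℤ} (hH : 1 ≤ H) (hh : 1 ≤ h) (hHM : H ≤ M3) (h1 : cR ≤ H * M3)
    (h2 : cR ≤ μ * M3) (hF1 : c * H ≤ cR * h) : c ≤ h * (M3 - H + μ) := by
  have h3 : cR ≤ H * (M3 - H + μ) := by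
    have e1 : 0 ≤ (M3 - H) * (H * M3 - cR) := mul_nonneg (by linarith) (by linarith)
    have e2 : 0 ≤ H * (μ * M3 - cR) := mul_nonneg (by linarith) (by linarith)
    by_contra h5
    push Not at h5
    have h6 : M3 * (H * (M3 - H + μ)) < M3 * cR := mul_lt_mul_of_pos_left h5 (by linarith)
    nlinarith
  have h4 : c * H ≤ (h * (M3 - H + μ)) * H := by
    calc c * H ≤ cR * h := hF1
      _ ≤ H * (M3 - H + μ) * h := mul_le_mul_of_nonneg_right h3 (by linarith)
      _ = _ := by ring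
  exact le_of_mul_le_mul_right h4 (by linarith)

lemma F3 {H w cR h c : ℤ} (hH : 1 ≤ H) (hh : 1 ≤ h) (h1 : cR ≤ w * H)
    (hF1 : c * H ≤ cR * h) : c ≤ w * h := by
  have h4 : c * H ≤ (w * h) * H := by
    calc c * H ≤ cR * h := hF1
      _ ≤ w * H * h := mul_le_mul_of_nonneg_right h1 (by linarith)
      _ = _ := by ring
  exact le_of_mul_le_mul_right h4 (by linarith)

lemma star {H h M1 M2 M3 c cR lam r Y : ℤ} (hH : 1 ≤ H) (hh : 1 ≤ h) (h1 : H ≤ M1)
    (h2 : H ≤ M2) (h3 : H ≤ M3)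
    (hE1 : H * lam + h * (M1 + M2 + M3 - 3 * H) ≤ Y) (hE2 : h * (H + M1 + M2 + M3) ≤ Y)
    (hr : 4 * H + 2 * h ≤ r) (hYr : H * r ≤ Y) (hY1 : Y < c + cR) (hY2 : Y < c + lam * H)
    (hcR : cR ≤ M1 * M2) (hF1 : c * H ≤ cR * h) (hF3 : c ≤ h * M3) : False := by
  have a1 : h * (M1 + M2 - 3 * H) < 0 := by nlinarith
  have a2 : M1 + M2 < 3 * H := by
    by_contra hcon
    push Not at hcon
    have : 0 ≤ h * (M1 + M2 - 3 * H) := mul_nonneg (by linarith) (by linarith)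
    linarith
  have a3 : 4 * cR < 9 * (H * H) := by nlinarith [sq_nonneg (M1 - M2)]
  have a4 : 4 * c < 9 * (h * H) := by
    by_contra hcon
    push Not at hcon
    have b1 : 9 * (h * H) * H ≤ 4 * c * H := mul_le_mul_of_nonneg_right hcon (by linarith)
    have b2 : 4 * cR * h < 9 * (H * H) * h := mul_lt_mul_of_pos_right a3 (by linarith)
    nlinarith
  rcases le_or_gt H h with hHh | hHh
  · have b1 : h * (3 * H + M3) ≤ Y := by
      refine le_trans ?_ hE2
      exact mul_le_mul_of_nonneg_left (by linarith) (by linarith)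
    have b2 : H * H ≤ h * H := mul_le_mul_of_nonneg_right hHh (by linarith)
    nlinarith
  · have b1 : H * (4 * H + 2 * h) ≤ Y := by
      refine le_trans ?_ hYr
      exact mul_le_mul_of_nonneg_left hr (by linarith)
    have b2 : h * H ≤ H * H := mul_le_mul_of_nonneg_right hHh.le (by linarith)
    nlinarith

/-! ### The permutation of the four rows 4, ..., 7 -/

lemma perm (X : Fin 4 → Fin 4 → ZMod 2)
    (hcol : ∀ j, X 0 j = 1 ∨ X 1 j = 1 ∨ X 2 j = 1 ∨ X 3 j = 1)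
    (hrow : ∀ g j j', X g j = 1 → X g j' = 1 → j = j') :
    ∃ γ : Fin 4 → Fin 4, Function.Injective γ ∧ ∀ g j, X g j = if γ j = g then 1 else 0 := by
  have hex : ∀ j, ∃ g, X g j = 1 := by
    intro j
    rcases hcol j with h | h | h | h
    exacts [⟨0, h⟩, ⟨1, h⟩, ⟨2, h⟩, ⟨3, h⟩]
  choose γ hγ using hex
  have hinj : Function.Injective γ := by
    intro j j' h
    apply hrow (γ j) j j' (hγ j)
    rw [h]
    exact hγ j'
  have hsurj : Function.Surjective γ := Finite.surjective_of_injective hinj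
  refine ⟨γ, hinj, ?_⟩
  intro g j
  split_ifs with h
  · rw [← h]; exact hγ j
  · rcases zmod2_cases (X g j) with h1 | h1
    · exact h1
    · exfalso
      obtain ⟨j', hj'⟩ := hsurj g
      have h2 : X g j' = 1 := by rw [← hj']; exact hγ j'
      have := hrow g j j' h1 h2
      rw [this] at h
      exact h hj'

lemma types : ∀ a b c : Fin 4, a ≠ b → a ≠ c → b ≠ c →
    ((if a = 0 ∨ a = 1 then (1 : ZMod 2) else 0) + (if b = 0 ∨ b = 1 then 1 else 0) = 1 ∨
      (if a = 0 ∨ a = 2 then (1 : ZMod 2) else 0) + (if b = 0 ∨ b = 2 then 1 else 0) = 1) ∧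
    ((if a = 0 ∨ a = 1 then (1 : ZMod 2) else 0) + (if c = 0 ∨ c = 1 then 1 else 0) = 1 ∨
      (if a = 0 ∨ a = 2 then (1 : ZMod 2) else 0) + (if c = 0 ∨ c = 2 then 1 else 0) = 1) ∧
    ((if a = 0 ∨ a = 1 then (1 : ZMod 2) else 0) + (if b = 0 ∨ b = 1 then 1 else 0) = 1 ∨
      (if a = 0 ∨ a = 1 then (1 : ZMod 2) else 0) + (if c = 0 ∨ c = 1 then 1 else 0) = 1) ∧
    ((if a = 0 ∨ a = 2 then (1 : ZMod 2) else 0) + (if b = 0 ∨ b = 2 then 1 else 0) = 1 ∨
      (if a = 0 ∨ a = 2 then (1 : ZMod 2) else 0) + (if c = 0 ∨ c = 2 then 1 else 0) = 1) := by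
  decide

lemma faces : ∀ a : Fin 4, ∀ X0 X1 X2 X3 : ZMod 2,
    (X0 = if a = 0 then 1 else 0) → (X1 = if a = 1 then 1 else 0) →
    (X2 = if a = 2 then 1 else 0) → (X3 = if a = 3 then 1 else 0) →
    X0 + X1 = (if a = 0 ∨ a = 1 then 1 else 0) ∧ X2 + X3 = 1 + (if a = 0 ∨ a = 1 then 1 else 0) ∧
    X0 + X2 = (if a = 0 ∨ a = 2 then 1 else 0) ∧
    X1 + X3 = 1 + (if a = 0 ∨ a = 2 then 1 else 0) := by
  decide

lemma zlem : ∀ z0 z1 z4 z5 z6 z7 : ZMod 2, z0 + z1 + z4 + z5 = 1 → z0 + z1 + z6 + z7 = 1 →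
    z0 = 1 ∨ z1 = 1 ∨ ((z4 = 1 ∨ z5 = 1) ∧ (z6 = 1 ∨ z7 = 1)) := by
  decide

lemma tt_pair (m : Fin 20 → ℕ) (x : Fin 20 → Fin 20 → ZMod 2) (g j j' : Fin 20)
    (h : x g j + x g j' = 1) : (m g : ℤ) ≤ tt m x g j + tt m x g j' := by
  have h1 := tt_nonneg m x g j
  have h2 := tt_nonneg m x g j'
  have h3 : x g j = 1 ∨ x g j' = 1 := by
    revert h
    generalize x g j = a
    generalize x g j' = b
    revert a b
    decide
  rcases h3 with h3 | h3
  · have := tt_one m x h3; linarith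
  · have := tt_one m x h3; linarith

/-- lower bound for two columns, faces of the first kind -/
lemma pairA (m : Fin 20 → ℕ) (x : Fin 20 → Fin 20 → ZMod 2) (j j' : Fin 20) (p h : ℤ)
    (p0 : p ≤ m 0) (p1 : p ≤ m 1) (h4 : h ≤ m 4) (h5 : h ≤ m 5) (h6 : h ≤ m 6) (h7 : h ≤ m 7)
    (e1 : (x 0 j + x 0 j') + (x 1 j + x 1 j') + (x 4 j + x 4 j') + (x 5 j + x 5 j') = 1)
    (e2 : (x 0 j + x 0 j') + (x 1 j + x 1 j') + (x 6 j + x 6 j') + (x 7 j + x 7 j') = 1) :
    p ≤ WW m x j + WW m x j' ∨ 2 * h ≤ WW m x j + WW m x j' := by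
  have n : ∀ g j, 0 ≤ tt m x g j := tt_nonneg m x
  have n0 := n 0 j; have n1 := n 1 j; have n2 := n 2 j; have n3 := n 3 j; have n4 := n 4 j
  have n5 := n 5 j; have n6 := n 6 j; have n7 := n 7 j; have n8 := n 8 j
  have k0 := n 0 j'; have k1 := n 1 j'; have k2 := n 2 j'; have k3 := n 3 j'; have k4 := n 4 j'
  have k5 := n 5 j'; have k6 := n 6 j'; have k7 := n 7 j'; have k8 := n 8 j'
  unfold WW
  rcases zlem _ _ _ _ _ _ e1 e2 with h | h | ⟨h | h, h' | h'⟩
  · left; have := tt_pair m x 0 j j' h; linarith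
  · left; have := tt_pair m x 1 j j' h; linarith
  · right
    have := tt_pair m x 4 j j' h
    have := tt_pair m x 6 j j' h'
    linarith
  · right
    have := tt_pair m x 4 j j' h
    have := tt_pair m x 7 j j' h'
    linarith
  · right
    have := tt_pair m x 5 j j' h
    have := tt_pair m x 6 j j' h'
    linarith
  · right
    have := tt_pair m x 5 j j' h
    have := tt_pair m x 7 j j' h'
    linarith

/-- lower bound for two columns, faces of the second kind -/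
lemma pairB (m : Fin 20 → ℕ) (x : Fin 20 → Fin 20 → ZMod 2) (j j' : Fin 20) (p h : ℤ)
    (p0 : p ≤ m 2) (p1 : p ≤ m 3) (h4 : h ≤ m 4) (h5 : h ≤ m 5) (h6 : h ≤ m 6) (h7 : h ≤ m 7)
    (e1 : (x 2 j + x 2 j') + (x 3 j + x 3 j') + (x 4 j + x 4 j') + (x 6 j + x 6 j') = 1)
    (e2 : (x 2 j + x 2 j') + (x 3 j + x 3 j') + (x 5 j + x 5 j') + (x 7 j + x 7 j') = 1) :
    p ≤ WW m x j + WW m x j' ∨ 2 * h ≤ WW m x j + WW m x j' := by
  have n : ∀ g j, 0 ≤ tt m x g j := tt_nonneg m x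
  have n0 := n 0 j; have n1 := n 1 j; have n2 := n 2 j; have n3 := n 3 j; have n4 := n 4 j
  have n5 := n 5 j; have n6 := n 6 j; have n7 := n 7 j; have n8 := n 8 j
  have k0 := n 0 j'; have k1 := n 1 j'; have k2 := n 2 j'; have k3 := n 3 j'; have k4 := n 4 j'
  have k5 := n 5 j'; have k6 := n 6 j'; have k7 := n 7 j'; have k8 := n 8 j'
  unfold WW
  rcases zlem _ _ _ _ _ _ e1 e2 with h | h | ⟨h | h, h' | h'⟩
  · left; have := tt_pair m x 2 j j' h; linarith
  · left; have := tt_pair m x 3 j j' h; linarith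
  · right
    have := tt_pair m x 4 j j' h
    have := tt_pair m x 5 j j' h'
    linarith
  · right
    have := tt_pair m x 4 j j' h
    have := tt_pair m x 7 j j' h'
    linarith
  · right
    have := tt_pair m x 6 j j' h
    have := tt_pair m x 5 j j' h'
    linarith
  · right
    have := tt_pair m x 6 j j' h
    have := tt_pair m x 7 j j' h'
    linarith

lemma rowdec : ∀ a b c d : ZMod 2,
    ¬ ((a = 1 ∧ b = 1) ∨ (a = 1 ∧ c = 1) ∨ (a = 1 ∧ d = 1) ∨ (b = 1 ∧ c = 1) ∨ (b = 1 ∧ d = 1) ∨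
      (c = 1 ∧ d = 1)) → ∀ j j' : Fin 4, (![a, b, c, d] : Fin 4 → ZMod 2) j = 1 →
      (![a, b, c, d] : Fin 4 → ZMod 2) j' = 1 → j = j' := by
  decide

lemma rowsum : ∀ a b c d : ZMod 2,
    ¬ ((a = 1 ∧ b = 1) ∨ (a = 1 ∧ c = 1) ∨ (a = 1 ∧ d = 1) ∨ (b = 1 ∧ c = 1) ∨ (b = 1 ∧ d = 1) ∨
      (c = 1 ∧ d = 1)) → (∃ j : Fin 4, (![a, b, c, d] : Fin 4 → ZMod 2) j = 1) →
    a + b + c + d = 1 := by
  decide

lemma zpair (A6 A8 A10 A11 s9 s10 a0 a1 : ZMod 2) (h9 : s9 = A6 + A10) (h10 : s10 = A6 + A11)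
    (t0 : a0 = A8 + A10) (t1 : a1 = A8 + A11) (h : a0 + a1 = 1) : s9 + s10 = 1 := by
  subst h9 h10 t0 t1
  revert h
  revert A6 A8 A10 A11
  decide

/-- one of the two pairs of columns is heavy -/
lemma heavy {H h M1 M2 M3 c cR lam SW Y W W' μ a a' : ℤ} (hH : 1 ≤ H) (hh : 1 ≤ h) (h1 : H ≤ M1)
    (h2 : H ≤ M2) (h3 : H ≤ M3) (hSW : H * lam ≤ H * SW)
    (hE : H * SW + h * (M1 + M2 + M3 - 3 * H) + (a * W + a' * W') ≤ Y)
    (hW : 0 ≤ W) (hW' : 0 ≤ W') (hμ : 0 ≤ μ) (ha : μ ≤ a) (ha' : μ ≤ a')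
    (hcR : cR ≤ H * M3) (hcR2 : cR ≤ μ * M3) (hF1 : c * H ≤ cR * h)
    (hWW : h ≤ W + W') (hY : Y < c + lam * H) : False := by
  have e1 : μ * W ≤ a * W := mul_le_mul_of_nonneg_right ha hW
  have e2 : μ * W' ≤ a' * W' := mul_le_mul_of_nonneg_right ha' hW'
  have e3 : μ * h ≤ μ * (W + W') := mul_le_mul_of_nonneg_left hWW hμ
  have e4 := KL hH hh h3 hcR hcR2 hF1
  have e5 : h * H ≤ h * M1 := mul_le_mul_of_nonneg_left h1 (by linarith)
  have e6 : h * H ≤ h * M2 := mul_le_mul_of_nonneg_left h2 (by linarith)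
  linarith

lemma light {H h M1 M2 M3 c cR lam SW Y W W' μ a a' p q : ℤ} (hH : 1 ≤ H) (hh : 1 ≤ h)
    (h1 : H ≤ M1) (h2 : H ≤ M2) (h3 : H ≤ M3) (hSW : H * lam ≤ H * SW)
    (hE : H * SW + h * (M1 + M2 + M3 - 3 * H) + (a * W + a' * W') ≤ Y)
    (hE2 : h * (H + M1 + M2 + M3) ≤ Y)
    (hW : 0 ≤ W) (hW' : 0 ≤ W') (hμ : 0 ≤ μ) (ha : μ ≤ a) (ha' : μ ≤ a')
    (hcR2 : cR ≤ μ * M3) (hcR3 : cR ≤ M1 * M2) (hF1 : c * H ≤ cR * h)
    (hF3 : c ≤ h * M3) (hp : 0 ≤ p) (hq : 0 ≤ q) (hc : c ≤ p * q) (hph : p < h) (hqh : q < h)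
    (hw : p ≤ W + W' ∨ q ≤ W + W') (hY1 : Y < c + cR) (hY : Y < c + lam * H) : False := by
  have e1 : μ * W ≤ a * W := mul_le_mul_of_nonneg_right ha hW
  have e2 : μ * W' ≤ a' * W' := mul_le_mul_of_nonneg_right ha' hW'
  have e5 : h * H ≤ h * M1 := mul_le_mul_of_nonneg_left h1 (by linarith)
  have e6 : h * H ≤ h * M2 := mul_le_mul_of_nonneg_left h2 (by linarith)
  have e7 : h * H ≤ h * M3 := mul_le_mul_of_nonneg_left h3 (by linarith)
  have hM3 : 0 < M3 := by linarith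
  rcases le_or_gt (h * M3) cR with hbig | hsmall
  · have hμh : h ≤ μ := le_of_mul_le_mul_right (le_trans hbig hcR2) hM3
    have hchw : c ≤ h * (W + W') := by
      rcases hw with hw | hw
      · calc c ≤ p * q := hc
          _ ≤ p * h := mul_le_mul_of_nonneg_left hqh.le hp
          _ = h * p := by ring
          _ ≤ h * (W + W') := mul_le_mul_of_nonneg_left hw (by linarith)
      · calc c ≤ p * q := hc
          _ ≤ h * q := mul_le_mul_of_nonneg_right hph.le hq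
          _ ≤ h * (W + W') := mul_le_mul_of_nonneg_left hw (by linarith)
    have e8 : h * (W + W') ≤ μ * (W + W') := mul_le_mul_of_nonneg_right hμh (by linarith)
    linarith
  · by_cases h3c : c ≤ 3 * (h * H)
    · linarith
    · push Not at h3c
      have f1 : 3 * (h * H) * H < c * H := mul_lt_mul_of_pos_right h3c (by linarith)
      have f2 : 3 * (H * H) < cR := by
        by_contra hcon
        push Not at hcon
        have : cR * h ≤ 3 * (H * H) * h := mul_le_mul_of_nonneg_right hcon (by linarith)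
        nlinarith
      have f3 : 3 * H ≤ M1 + M2 := by
        by_contra hcon
        push Not at hcon
        have f4 : (M1 + M2) * (M1 + M2) ≤ 3 * H * (3 * H) :=
          mul_self_le_mul_self (by linarith) hcon.le
        nlinarith [sq_nonneg (M1 - M2)]
      have f5 : h * (3 * H) ≤ h * (M1 + M2) := mul_le_mul_of_nonneg_left f3 (by linarith)
      have f6 : 0 ≤ a * W := by nlinarith
      have f7 : 0 ≤ a' * W' := by nlinarith
      linarith

lemma ne_of_sum : ∀ a b : ZMod 2, a + b = 1 → a ≠ b := by decide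

lemma sum_of_ne : ∀ a b : ZMod 2, a ≠ b → a + b ≠ 0 := by decide

lemma eq_of_ne : ∀ a b c : ZMod 2, a ≠ b → a ≠ c → b = c := by decide

end B3M

open B3M in
theorem main_case_13 (m : Fin 20 → ℕ) (hm : ∀ g, 1 ≤ m g) (hyp : Hyp m)
    (h13 : ∀ d ∈ DE, m 13 ≤ m d)
    (x : Fin 20 → Fin 20 → ZMod 2) (kD ka ka' kb kb' : Fin 12 → ZMod 2)
    (hx : MainData x kD ka ka' kb kb') : Achieved m (Yw m x) := by
  -- the minima
  obtain ⟨P0, hP0, hPmin⟩ : ∃ P0 ∈ LPairs, ∀ P ∈ LPairs, m P0.1 * m P0.2 ≤ m P.1 * m P.2 := by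
    obtain ⟨P0, h1, h2⟩ := Finset.exists_min_image LPairs.toFinset (fun P => m P.1 * m P.2)
      ⟨(0, 2), by decide⟩
    exact ⟨P0, by simpa using h1, fun P hP => h2 P (by simpa using hP)⟩
  obtain ⟨Q0, hQ0, hQmin⟩ : ∃ P0 ∈ RPairs, ∀ P ∈ RPairs, m P0.1 * m P0.2 ≤ m P.1 * m P.2 := by
    obtain ⟨P0, h1, h2⟩ := Finset.exists_min_image RPairs.toFinset (fun P => m P.1 * m P.2)
      ⟨(9, 11), by decide⟩
    exact ⟨P0, by simpa using h1, fun P hP => h2 P (by simpa using hP)⟩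
  obtain ⟨S0, hS0, hSmin⟩ : ∃ S0 ∈ Cuts, ∀ S ∈ Cuts, (S0.map m).sum ≤ (S.map m).sum := by
    obtain ⟨P0, h1, h2⟩ := Finset.exists_min_image Cuts.toFinset (fun S => (S.map m).sum)
      ⟨[0, 1], by decide⟩
    exact ⟨P0, by simpa using h1, fun P hP => h2 P (by simpa using hP)⟩
  obtain ⟨e0, he0, hemin⟩ : ∃ e0 ∈ CE, ∀ e ∈ CE, m e0 ≤ m e := by
    obtain ⟨P0, h1, h2⟩ := Finset.exists_min_image CE.toFinset (fun e => m e)
      ⟨4, by decide⟩
    exact ⟨P0, by simpa using h1, fun P hP => h2 P (by simpa using hP)⟩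
  by_contra hcon
  obtain ⟨c, hc⟩ : ∃ c : ℤ, c = (m P0.1 * m P0.2 : ℕ) := ⟨_, rfl⟩
  obtain ⟨cR, hcR⟩ : ∃ c : ℤ, c = (m Q0.1 * m Q0.2 : ℕ) := ⟨_, rfl⟩
  obtain ⟨lam, hlam⟩ : ∃ c : ℤ, c = ((S0.map m).sum : ℕ) := ⟨_, rfl⟩
  obtain ⟨h, hh⟩ : ∃ c : ℤ, c = (m e0 : ℕ) := ⟨_, rfl⟩
  have hY1 : (Yw m x : ℤ) < c + cR := by
    by_contra hlt
    push Not at hlt
    apply hcon
    left
    refine ⟨P0, hP0, Q0, hQ0, ?_⟩
    rw [hc, hcR] at hlt
    exact_mod_cast hlt
  have hY2 : (Yw m x : ℤ) < c + lam * (m 13 : ℤ) := by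
    by_contra hlt
    push Not at hlt
    apply hcon
    right; left
    refine ⟨S0, hS0, P0, hP0, 13, by decide, ?_⟩
    rw [hc, hlam] at hlt
    exact_mod_cast hlt
  have hL : ∀ P ∈ LPairs, c ≤ (m P.1 : ℤ) * m P.2 := by
    intro P hP
    rw [hc]
    exact_mod_cast hPmin P hP
  have hR : ∀ P ∈ RPairs, cR ≤ (m P.1 : ℤ) * m P.2 := by
    intro P hP
    rw [hcR]
    exact_mod_cast hQmin P hP
  have hlamS : ∀ S ∈ Cuts, lam ≤ ((S.map m).sum : ℤ) := by
    intro S hS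
    rw [hlam]
    exact_mod_cast hSmin S hS
  have hhE : ∀ e ∈ CE, h ≤ (m e : ℤ) := by
    intro e he
    rw [hh]
    exact_mod_cast hemin e he
  have hF1 : c * (m 13 : ℤ) ≤ cR * h := by
    obtain ⟨P, hP, d, hd, hPd⟩ := hyp
    have h1 := hPd Q0 hQ0 e0 he0
    have h2 := hPmin P hP
    have h3 := h13 d hd
    have h4 : m P0.1 * m P0.2 * m 13 ≤ m Q0.1 * m Q0.2 * m e0 :=
      le_trans (Nat.mul_le_mul h2 h3) h1
    rw [hc, hcR, hh]
    exact_mod_cast h4
  obtain ⟨H, hH⟩ : ∃ c : ℤ, c = (m 13 : ℤ) := ⟨_, rfl⟩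
  have hm' : ∀ g, (1 : ℤ) ≤ m g := fun g => by exact_mod_cast hm g
  have hH1 : 1 ≤ H := by rw [hH]; exact hm' 13
  have hh1 : 1 ≤ h := by rw [hh]; exact_mod_cast hm e0
  have hM1 : H ≤ m 14 := by rw [hH]; exact_mod_cast h13 14 (by decide)
  have hM2 : H ≤ m 15 := by rw [hH]; exact_mod_cast h13 15 (by decide)
  have hM3 : H ≤ m 16 := by rw [hH]; exact_mod_cast h13 16 (by decide)
  rw [← hH] at hY2 hF1
  have r13_16 : cR ≤ H * m 16 := by rw [hH]; exact hR (13, 16) (by decide)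
  have r14_15 : cR ≤ m 14 * m 15 := hR (14, 15) (by decide)
  have r9_16 : cR ≤ m 9 * m 16 := hR (9, 16) (by decide)
  have r10_13 : cR ≤ m 10 * H := by rw [hH]; exact hR (10, 13) (by decide)
  have r11_16 : cR ≤ m 11 * m 16 := hR (11, 16) (by decide)
  have r12_13 : cR ≤ m 12 * H := by rw [hH]; exact hR (12, 13) (by decide)
  have h4 : h ≤ m 4 := hhE 4 (by decide)
  have h5 : h ≤ m 5 := hhE 5 (by decide)
  have h6 : h ≤ m 6 := hhE 6 (by decide)
  have h7 : h ≤ m 7 := hhE 7 (by decide)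
  have hF3 : c ≤ h * m 16 := by
    have := F3 (w := (m 16 : ℤ)) hH1 hh1 (by linarith) hF1
    linarith
  have h20 : (2 : ZMod 2) = 0 := by decide
  -- columns
  have hcol : ∀ j : Fin 20, 9 ≤ j.val → j.val ≤ 16 →
      x 4 j + x 5 j + x 6 j + x 7 j = (ka (src j) + ka' (src j)) + (ka (tgt j) + ka' (tgt j)) := by
    intro j h1 h2
    linear_combination hx.ha j h1 h2 + hx.ha' j h1 h2 - (x 0 j + x 1 j) * h20
  have W0 : ∀ j, 0 ≤ WW m x j := by
    intro j
    unfold WW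
    have n := fun g => tt_nonneg m x g j
    have n0 := n 0; have n1 := n 1; have n2 := n 2; have n3 := n 3; have n4 := n 4
    have n5 := n 5; have n6 := n 6; have n7 := n 7; have n8 := n 8
    linarith
  have hcolW : ∀ j : Fin 20, x 4 j + x 5 j + x 6 j + x 7 j ≠ 0 → h ≤ WW m x j := by
    intro j hj
    have n := fun g => tt_nonneg m x g j
    have n0 := n 0; have n1 := n 1; have n2 := n 2; have n3 := n 3; have n4 := n 4
    have n5 := n 5; have n6 := n 6; have n7 := n 7; have n8 := n 8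
    unfold WW
    rcases col_odd _ _ _ _ hj with h' | h' | h' | h' <;>
    · have := tt_one m x h'
      linarith
  have hcross : ∀ j : Fin 20, 9 ≤ j.val → j.val ≤ 16 →
      ka (src j) + ka' (src j) ≠ ka (tgt j) + ka' (tgt j) → h ≤ WW m x j := by
    intro j h1 h2 h3
    apply hcolW
    rw [hcol j h1 h2]
    revert h3
    generalize ka (src j) + ka' (src j) = a
    generalize ka (tgt j) + ka' (tgt j) = b
    revert a b
    decide
  have hYeq := Yw_eq m x
  rw [← hH] at hYeq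
  have hsum := sum_WW m x
  have hNN : ∀ g : Fin 20, g.val ≤ 8 →
      (if kD (src g) ≠ kD (tgt g) then (m g : ℤ) else 0) ≤ NN m x g := by
    intro g hg
    split_ifs with hne
    · apply NN_ge
      rw [hx.hDe g hg]
      exact sum_of_ne _ _ hne
    · exact NN_nonneg m x g
  have hlamT : lam ≤ WW m x 13 + WW m x 14 + WW m x 15 + WW m x 16 := by
    rw [hsum]
    exact cut_bound m kD hx.hD lam hlamS (NN m x) hNN
  have hHlam : H * lam ≤ H * (WW m x 13 + WW m x 14 + WW m x 15 + WW m x 16) :=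
    mul_le_mul_of_nonneg_left hlamT (by linarith)
  have q14 : H * WW m x 14 ≤ m 14 * WW m x 14 := mul_le_mul_of_nonneg_right hM1 (W0 14)
  have q15 : H * WW m x 15 ≤ m 15 * WW m x 15 := mul_le_mul_of_nonneg_right hM2 (W0 15)
  have q16 : H * WW m x 16 ≤ m 16 * WW m x 16 := mul_le_mul_of_nonneg_right hM3 (W0 16)
  have z9 : 0 ≤ (m 9 : ℤ) * WW m x 9 := mul_nonneg (by linarith [hm' 9]) (W0 9)
  have z10 : 0 ≤ (m 10 : ℤ) * WW m x 10 := mul_nonneg (by linarith [hm' 10]) (W0 10)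
  have z11 : 0 ≤ (m 11 : ℤ) * WW m x 11 := mul_nonneg (by linarith [hm' 11]) (W0 11)
  have z12 : 0 ≤ (m 12 : ℤ) * WW m x 12 := mul_nonneg (by linarith [hm' 12]) (W0 12)
  -- step 0
  have s10 : ka 6 + ka' 6 = ka 11 + ka' 11 := by
    by_contra hne
    have hw : h ≤ WW m x 10 := hcross 10 (by decide) (by decide) hne
    have q : (m 10 : ℤ) * h ≤ m 10 * WW m x 10 :=
      mul_le_mul_of_nonneg_left hw (by linarith [hm' 10])
    have := F3 hH1 hh1 r10_13 hF1
    linarith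
  have s12 : ka 7 + ka' 7 = ka 9 + ka' 9 := by
    by_contra hne
    have hw : h ≤ WW m x 12 := hcross 12 (by decide) (by decide) hne
    have q : (m 12 : ℤ) * h ≤ m 12 * WW m x 12 :=
      mul_le_mul_of_nonneg_left hw (by linarith [hm' 12])
    have := F3 hH1 hh1 r12_13 hF1
    linarith
  have c16 : ka 9 + ka' 9 ≠ ka 11 + ka' 11 := by
    rw [← s10, ← s12]
    exact hx.hC.symm
  have w16 : h ≤ WW m x 16 := hcross 16 (by decide) (by decide) c16
  have p16 : H * WW m x 16 + ((m 16 : ℤ) - H) * h ≤ m 16 * WW m x 16 := by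
    have := mul_le_mul_of_nonneg_left w16 (show (0 : ℤ) ≤ m 16 - H by linarith)
    linarith
  have s9 : ka 6 + ka' 6 = ka 10 + ka' 10 := by
    by_contra hne
    have hw : h ≤ WW m x 9 := hcross 9 (by decide) (by decide) hne
    have q : (m 9 : ℤ) * h ≤ m 9 * WW m x 9 :=
      mul_le_mul_of_nonneg_left hw (by linarith [hm' 9])
    have := KL hH1 hh1 hM3 r13_16 r9_16 hF1
    linarith
  have s11 : ka 7 + ka' 7 = ka 8 + ka' 8 := by
    by_contra hne
    have hw : h ≤ WW m x 11 := hcross 11 (by decide) (by decide) hne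
    have q : (m 11 : ℤ) * h ≤ m 11 * WW m x 11 :=
      mul_le_mul_of_nonneg_left hw (by linarith [hm' 11])
    have := KL hH1 hh1 hM3 r13_16 r11_16 hF1
    linarith
  have c13 : ka 8 + ka' 8 ≠ ka 10 + ka' 10 := by
    rw [← s9, ← s11]
    exact hx.hC.symm
  have c14 : ka 8 + ka' 8 ≠ ka 11 + ka' 11 := by
    rw [← s10, ← s11]
    exact hx.hC.symm
  have c15 : ka 9 + ka' 9 ≠ ka 10 + ka' 10 := by
    rw [← s9, ← s12]
    exact hx.hC.symm
  have w13 : h ≤ WW m x 13 := hcross 13 (by decide) (by decide) c13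
  have w14 : h ≤ WW m x 14 := hcross 14 (by decide) (by decide) c14
  have w15 : h ≤ WW m x 15 := hcross 15 (by decide) (by decide) c15
  have p14 : H * WW m x 14 + ((m 14 : ℤ) - H) * h ≤ m 14 * WW m x 14 := by
    have := mul_le_mul_of_nonneg_left w14 (show (0 : ℤ) ≤ m 14 - H by linarith)
    linarith
  have p15 : H * WW m x 15 + ((m 15 : ℤ) - H) * h ≤ m 15 * WW m x 15 := by
    have := mul_le_mul_of_nonneg_left w15 (show (0 : ℤ) ≤ m 15 - H by linarith)
    linarith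
  have p13 : H * h ≤ H * WW m x 13 := mul_le_mul_of_nonneg_left w13 (by linarith)
  have p14' : H * h ≤ H * WW m x 14 := mul_le_mul_of_nonneg_left w14 (by linarith)
  have p15' : H * h ≤ H * WW m x 15 := mul_le_mul_of_nonneg_left w15 (by linarith)
  have p16' : H * h ≤ H * WW m x 16 := mul_le_mul_of_nonneg_left w16 (by linarith)
  have E1 : H * (WW m x 13 + WW m x 14 + WW m x 15 + WW m x 16) +
      h * ((m 14 : ℤ) + m 15 + m 16 - 3 * H) + (m 9 * WW m x 9 + m 10 * WW m x 10 +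
        m 11 * WW m x 11 + m 12 * WW m x 12) ≤ (Yw m x : ℤ) := by
    rw [hYeq]
    linarith
  have E1' : H * lam + h * ((m 14 : ℤ) + m 15 + m 16 - 3 * H) ≤ (Yw m x : ℤ) := by linarith
  have E2 : h * (H + (m 14 : ℤ) + m 15 + m 16) ≤ (Yw m x : ℤ) := by
    rw [hYeq]
    linarith
  have EH : H * (WW m x 13 + WW m x 14 + WW m x 15 + WW m x 16) ≤ (Yw m x : ℤ) := by
    rw [hYeq]
    linarith
  have hhM : h * H ≤ h * m 14 := mul_le_mul_of_nonneg_left hM1 (by linarith)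
  have hhM2 : h * H ≤ h * m 15 := mul_le_mul_of_nonneg_left hM2 (by linarith)
  have hhM3 : h * H ≤ h * m 16 := mul_le_mul_of_nonneg_left hM3 (by linarith)
  have hhH : 0 < h * H := mul_pos (by linarith) (by linarith)
  -- step 1
  have step1 : ∀ g : Fin 20, (g = 4 ∨ g = 5 ∨ g = 6 ∨ g = 7) →
      ¬ ((x g 13 = 1 ∧ x g 14 = 1) ∨ (x g 13 = 1 ∧ x g 15 = 1) ∨ (x g 13 = 1 ∧ x g 16 = 1) ∨
      (x g 14 = 1 ∧ x g 15 = 1) ∨ (x g 14 = 1 ∧ x g 16 = 1) ∨ (x g 15 = 1 ∧ x g 16 = 1)) := by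
    intro g hg htwo
    have hg8 : g.val ≤ 8 := by rcases hg with rfl | rfl | rfl | rfl <;> decide
    have hgh : h ≤ m g := by
      rcases hg with rfl | rfl | rfl | rfl
      · exact h4
      · exact h5
      · exact h6
      · exact h7
    have hb : lam + 2 * h ≤ WW m x 13 + WW m x 14 + WW m x 15 + WW m x 16 := by
      rw [hsum]
      have hN2 := NN_two m x g htwo
      have hcb := cut_bound m kD hx.hD lam hlamS
        (fun k => NN m x k - if k = g then 2 * (m g : ℤ) else 0) (by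
          intro k hk
          by_cases hkg : k = g
          · subst hkg
            simp only [if_true]
            rw [hx.hDe k hk] at hN2
            have hiff : (kD (src k) + kD (tgt k) ≠ 0) ↔ (kD (src k) ≠ kD (tgt k)) := by
              generalize kD (src k) = a
              generalize kD (tgt k) = b
              revert a b
              decide
            rw [if_congr hiff rfl rfl] at hN2
            linarith
          · simp only [if_neg hkg, sub_zero]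
            exact hNN k hk)
      rcases hg with rfl | rfl | rfl | rfl <;> simp at hcb <;> linarith only [hcb, h4, h5, h6, h7]
    have hb2 := mul_le_mul_of_nonneg_left hb (show 0 ≤ H by linarith)
    linarith
  -- step 2
  obtain ⟨X, hXdef⟩ : ∃ X : Fin 4 → Fin 4 → ZMod 2, X =
      fun g j => x ((![4, 5, 6, 7] : Fin 4 → Fin 20) g) ((![13, 14, 15, 16] : Fin 4 → Fin 20) j) :=
    ⟨_, rfl⟩
  have hXrow : ∀ g : Fin 4, X g = ![x ((![4, 5, 6, 7] : Fin 4 → Fin 20) g) 13,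
      x ((![4, 5, 6, 7] : Fin 4 → Fin 20) g) 14, x ((![4, 5, 6, 7] : Fin 4 → Fin 20) g) 15,
      x ((![4, 5, 6, 7] : Fin 4 → Fin 20) g) 16] := by
    intro g
    rw [hXdef]
    funext j
    fin_cases j <;> rfl
  have h47 : ∀ g : Fin 4, (![4, 5, 6, 7] : Fin 4 → Fin 20) g = 4 ∨
      (![4, 5, 6, 7] : Fin 4 → Fin 20) g = 5 ∨ (![4, 5, 6, 7] : Fin 4 → Fin 20) g = 6 ∨
      (![4, 5, 6, 7] : Fin 4 → Fin 20) g = 7 := by decide
  have hcolX : ∀ j, X 0 j = 1 ∨ X 1 j = 1 ∨ X 2 j = 1 ∨ X 3 j = 1 := by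
    intro j
    apply col_odd
    rw [hXdef]
    have hj1 : 9 ≤ ((![13, 14, 15, 16] : Fin 4 → Fin 20) j).val := by revert j; decide
    have hj2 : ((![13, 14, 15, 16] : Fin 4 → Fin 20) j).val ≤ 16 := by revert j; decide
    have := hcol _ hj1 hj2
    show x 4 _ + x 5 _ + x 6 _ + x 7 _ ≠ 0
    rw [this]
    apply sum_of_ne
    fin_cases j
    · exact c13
    · exact c14
    · exact c15
    · exact c16
  obtain ⟨γ, hinj, hγ⟩ := perm X hcolX (by
    intro g j j' h1 h2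
    rw [hXrow g] at h1 h2
    exact rowdec _ _ _ _ (step1 _ (h47 g)) j j' h1 h2)
  have hsurj : Function.Surjective γ := Finite.surjective_of_injective hinj
  have hrowsum : ∀ g : Fin 4, x ((![4, 5, 6, 7] : Fin 4 → Fin 20) g) 13 +
      x ((![4, 5, 6, 7] : Fin 4 → Fin 20) g) 14 + x ((![4, 5, 6, 7] : Fin 4 → Fin 20) g) 15 +
      x ((![4, 5, 6, 7] : Fin 4 → Fin 20) g) 16 = 1 := by
    intro g
    apply rowsum _ _ _ _ (step1 _ (h47 g))
    obtain ⟨j, hj⟩ := hsurj g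
    refine ⟨j, ?_⟩
    rw [← hXrow g, hγ g j, if_pos hj]
  have rs4 : x 4 13 + x 4 14 + x 4 15 + x 4 16 = 1 := hrowsum 0
  have rs5 : x 5 13 + x 5 14 + x 5 15 + x 5 16 = 1 := hrowsum 1
  have rs6 : x 6 13 + x 6 14 + x 6 15 + x 6 16 = 1 := hrowsum 2
  have rs7 : x 7 13 + x 7 14 + x 7 15 + x 7 16 = 1 := hrowsum 3
  have N4 : (m 4 : ℤ) ≤ NN m x 4 := NN_ge m x 4 (by rw [rs4]; decide)
  have N5 : (m 5 : ℤ) ≤ NN m x 5 := NN_ge m x 5 (by rw [rs5]; decide)
  have N6 : (m 6 : ℤ) ≤ NN m x 6 := NN_ge m x 6 (by rw [rs6]; decide)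
  have N7 : (m 7 : ℤ) ≤ NN m x 7 := NN_ge m x 7 (by rw [rs7]; decide)
  have k24 : kD 2 ≠ kD 4 := ne_of_sum _ _ ((hx.hDe 4 (by decide)).symm.trans rs4)
  have k25 : kD 2 ≠ kD 5 := ne_of_sum _ _ ((hx.hDe 5 (by decide)).symm.trans rs5)
  have k34 : kD 3 ≠ kD 4 := ne_of_sum _ _ ((hx.hDe 6 (by decide)).symm.trans rs6)
  have k35 : kD 3 ≠ kD 5 := ne_of_sum _ _ ((hx.hDe 7 (by decide)).symm.trans rs7)
  have k01 := hx.hD
  have k32 : kD 3 = kD 2 := eq_of_ne (kD 4) (kD 3) (kD 2) k34.symm k24.symm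
  have k54 : kD 5 = kD 4 := eq_of_ne (kD 2) (kD 5) (kD 4) k25 k24
  have NN0 := NN_nonneg m x
  have n0 := NN0 0
  have n1 := NN0 1
  have n2 := NN0 2
  have n3 := NN0 3
  have n8 := NN0 8
  have hlr : lam ≤ (m 4 : ℤ) + m 5 + m 6 + m 7 := by
    have := hlamS [4, 5, 6, 7] (by decide)
    simp only [List.map_cons, List.map_nil, List.sum_cons, List.sum_nil] at this
    push_cast at this
    linarith
  have hrT : (m 4 : ℤ) + m 5 + m 6 + m 7 ≤ WW m x 13 + WW m x 14 + WW m x 15 + WW m x 16 := by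
    rw [hsum]
    linarith
  have hHrT := mul_le_mul_of_nonneg_left hrT (show 0 ≤ H by linarith)
  have hHlr := mul_le_mul_of_nonneg_left hlr (show 0 ≤ H by linarith)
  -- the case with two large edges
  have hstar : 4 * H + 2 * h ≤ (m 4 : ℤ) + m 5 + m 6 + m 7 → False := by
    intro hr
    exact star hH1 hh1 hM1 hM2 hM3 E1' E2 hr (by linarith) hY1 hY2 r14_15 hF1 hF3
  by_cases hk : kD 4 = kD 1
  · -- case (a)
    have k20 : kD 2 = kD 0 := eq_of_ne (kD 1) (kD 2) (kD 0) (by rw [← hk]; exact k24.symm) k01.symm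
    have N2 : (m 2 : ℤ) ≤ NN m x 2 := by
      have t : kD (src 2) ≠ kD (tgt 2) := by
        show kD 1 ≠ kD 2
        rw [k20]; exact k01.symm
      have := hNN 2 (by decide)
      rw [if_pos t] at this
      exact this
    have N3 : (m 3 : ℤ) ≤ NN m x 3 := by
      have t : kD (src 3) ≠ kD (tgt 3) := by
        show kD 1 ≠ kD 3
        rw [k32, k20]; exact k01.symm
      have := hNN 3 (by decide)
      rw [if_pos t] at this
      exact this
    have l26 : c ≤ m 2 * m 6 := hL (2, 6) (by decide)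
    have l27 : c ≤ m 2 * m 7 := hL (2, 7) (by decide)
    have l34 : c ≤ m 3 * m 4 := hL (3, 4) (by decide)
    have l35 : c ≤ m 3 * m 5 := hL (3, 5) (by decide)
    by_cases h67 : 2 * H < m 6 ∧ 2 * H < m 7
    · exact hstar (by linarith [h67.1, h67.2])
    by_cases h45 : 2 * H < m 4 ∧ 2 * H < m 5
    · exact hstar (by linarith [h45.1, h45.2])
    have m2 : (0 : ℤ) ≤ m 2 := by linarith [hm' 2]
    have m3 : (0 : ℤ) ≤ m 3 := by linarith [hm' 3]
    have g1 : c ≤ m 2 * (2 * H) := by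
      by_cases h6' : 2 * H < m 6
      · have h7' : (m 7 : ℤ) ≤ 2 * H := by
          by_contra hc'
          push Not at hc'
          exact h67 ⟨h6', hc'⟩
        exact le_trans l27 (mul_le_mul_of_nonneg_left h7' m2)
      · push Not at h6'
        exact le_trans l26 (mul_le_mul_of_nonneg_left h6' m2)
    have g2 : c ≤ m 3 * (2 * H) := by
      by_cases h4' : 2 * H < m 4
      · have h5' : (m 5 : ℤ) ≤ 2 * H := by
          by_contra hc'
          push Not at hc'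
          exact h45 ⟨h4', hc'⟩
        exact le_trans l35 (mul_le_mul_of_nonneg_left h5' m3)
      · push Not at h4'
        exact le_trans l34 (mul_le_mul_of_nonneg_left h4' m3)
    have hT : lam + m 2 + m 3 ≤ WW m x 13 + WW m x 14 + WW m x 15 + WW m x 16 := by
      rw [hsum]
      linarith
    have hT' := mul_le_mul_of_nonneg_left hT (show 0 ≤ H by linarith)
    linarith
  · have k40 : kD 4 = kD 0 := by
      revert hk k01
      generalize kD 4 = a
      generalize kD 0 = b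
      generalize kD 1 = c
      revert a b c
      decide
    have k21 : kD 2 = kD 1 := by
      rw [k40] at k24
      exact (eq_of_ne _ _ _ k01 k24.symm).symm
    have h11 : ∀ a : ZMod 2, a + a = 0 := by decide
    have e0 : x 0 13 + x 0 14 + x 0 15 + x 0 16 = 0 := by
      rw [hx.hDe 0 (by decide)]
      show kD 0 + kD 4 = 0
      rw [k40]; exact h11 _
    have e1 : x 1 13 + x 1 14 + x 1 15 + x 1 16 = 0 := by
      rw [hx.hDe 1 (by decide)]
      show kD 0 + kD 5 = 0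
      rw [k54, k40]; exact h11 _
    have e2 : x 2 13 + x 2 14 + x 2 15 + x 2 16 = 0 := by
      rw [hx.hDe 2 (by decide)]
      show kD 1 + kD 2 = 0
      rw [k21]; exact h11 _
    have e3 : x 3 13 + x 3 14 + x 3 15 + x 3 16 = 0 := by
      rw [hx.hDe 3 (by decide)]
      show kD 1 + kD 3 = 0
      rw [k32, k21]; exact h11 _
    -- case (b)
    have caseb : ∀ g r1 r2 : Fin 20, (g = 0 ∨ g = 1 ∨ g = 2 ∨ g = 3) → c ≤ (m g : ℤ) * m r1 →
        c ≤ (m g : ℤ) * m r2 →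
        (2 * H < m r1 → 2 * H < m r2 → 4 * H + 2 * h ≤ (m 4 : ℤ) + m 5 + m 6 + m 7) →
        x g 13 + x g 14 + x g 15 + x g 16 = 0 →
        x g 13 = 0 ∧ x g 14 = 0 ∧ x g 15 = 0 ∧ x g 16 = 0 := by
      intro g r1 r2 hg l1 l2 hr hsum0
      rcases row_even _ _ _ _ hsum0 with hz | htwo
      · exact hz
      · exfalso
        by_cases hb : 2 * H < (m r1 : ℤ) ∧ 2 * H < (m r2 : ℤ)
        · exact hstar (hr hb.1 hb.2)
        have mg : (0 : ℤ) ≤ m g := by linarith [hm' g]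
        have g1 : c ≤ m g * (2 * H) := by
          by_cases h6' : 2 * H < (m r1 : ℤ)
          · have h7' : (m r2 : ℤ) ≤ 2 * H := by
              by_contra hc'
              push Not at hc'
              exact hb ⟨h6', hc'⟩
            exact le_trans l2 (mul_le_mul_of_nonneg_left h7' mg)
          · push Not at h6'
            exact le_trans l1 (mul_le_mul_of_nonneg_left h6' mg)
        have hN2 := NN_two m x g htwo
        rw [hsum0, if_neg (by simp)] at hN2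
        have hT : lam + 2 * m g ≤ WW m x 13 + WW m x 14 + WW m x 15 + WW m x 16 := by
          rw [hsum]
          rcases hg with rfl | rfl | rfl | rfl <;> linarith
        have hT' := mul_le_mul_of_nonneg_left hT (show 0 ≤ H by linarith)
        linarith
    obtain ⟨x013, x014, x015, x016⟩ := caseb 0 5 7 (by decide) (hL (0, 5) (by decide))
      (hL (0, 7) (by decide)) (by intro _ _; linarith) e0
    obtain ⟨x113, x114, x115, x116⟩ := caseb 1 4 6 (by decide) (hL (1, 4) (by decide))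
      (hL (1, 6) (by decide)) (by intro _ _; linarith) e1
    obtain ⟨x213, x214, x215, x216⟩ := caseb 2 6 7 (by decide) (hL (2, 6) (by decide))
      (hL (2, 7) (by decide)) (by intro _ _; linarith) e2
    obtain ⟨x313, x314, x315, x316⟩ := caseb 3 4 5 (by decide) (hL (3, 4) (by decide))
      (hL (3, 5) (by decide)) (by intro _ _; linarith) e3
    have d01 : γ 0 ≠ γ 1 := fun h' => absurd (hinj h') (by decide)
    have d02 : γ 0 ≠ γ 2 := fun h' => absurd (hinj h') (by decide)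
    have d12 : γ 1 ≠ γ 2 := fun h' => absurd (hinj h') (by decide)
    have xval : ∀ g j : Fin 4, x ((![4, 5, 6, 7] : Fin 4 → Fin 20) g)
        ((![13, 14, 15, 16] : Fin 4 → Fin 20) j) = if γ j = g then 1 else 0 := by
      intro g j
      rw [← hγ g j, hXdef]
    have F0 := faces (γ 0) _ _ _ _ (xval 0 0) (xval 1 0) (xval 2 0) (xval 3 0)
    have F1' := faces (γ 1) _ _ _ _ (xval 0 1) (xval 1 1) (xval 2 1) (xval 3 1)
    have F2 := faces (γ 2) _ _ _ _ (xval 0 2) (xval 1 2) (xval 2 2) (xval 3 2)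
    have T := types (γ 0) (γ 1) (γ 2) d01 d02 d12
    obtain ⟨α0, hα0⟩ : ∃ a : ZMod 2, a = if γ 0 = 0 ∨ γ 0 = 1 then 1 else 0 := ⟨_, rfl⟩
    obtain ⟨α1, hα1⟩ : ∃ a : ZMod 2, a = if γ 1 = 0 ∨ γ 1 = 1 then 1 else 0 := ⟨_, rfl⟩
    obtain ⟨α2, hα2⟩ : ∃ a : ZMod 2, a = if γ 2 = 0 ∨ γ 2 = 1 then 1 else 0 := ⟨_, rfl⟩
    obtain ⟨β0, hβ0⟩ : ∃ a : ZMod 2, a = if γ 0 = 0 ∨ γ 0 = 2 then 1 else 0 := ⟨_, rfl⟩
    obtain ⟨β1, hβ1⟩ : ∃ a : ZMod 2, a = if γ 1 = 0 ∨ γ 1 = 2 then 1 else 0 := ⟨_, rfl⟩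
    obtain ⟨β2, hβ2⟩ : ∃ a : ZMod 2, a = if γ 2 = 0 ∨ γ 2 = 2 then 1 else 0 := ⟨_, rfl⟩
    rw [← hα0, ← hα1, ← hα2, ← hβ0, ← hβ1, ← hβ2] at T
    rw [← hα0, ← hβ0] at F0
    rw [← hα1, ← hβ1] at F1'
    rw [← hα2, ← hβ2] at F2
    have a0 : x 4 13 + x 5 13 = α0 := F0.1
    have a0' : x 6 13 + x 7 13 = 1 + α0 := F0.2.1
    have b0 : x 4 13 + x 6 13 = β0 := F0.2.2.1
    have b0' : x 5 13 + x 7 13 = 1 + β0 := F0.2.2.2
    have a1 : x 4 14 + x 5 14 = α1 := F1'.1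
    have a1' : x 6 14 + x 7 14 = 1 + α1 := F1'.2.1
    have b1 : x 4 14 + x 6 14 = β1 := F1'.2.2.1
    have b1' : x 5 14 + x 7 14 = 1 + β1 := F1'.2.2.2
    have a2 : x 4 15 + x 5 15 = α2 := F2.1
    have a2' : x 6 15 + x 7 15 = 1 + α2 := F2.2.1
    have b2 : x 4 15 + x 6 15 = β2 := F2.2.2.1
    have b2' : x 5 15 + x 7 15 = 1 + β2 := F2.2.2.2
    have A9 : x 0 9 + x 1 9 + x 4 9 + x 5 9 = ka 6 + ka 10 := hx.ha 9 (by decide) (by decide)
    have A10 : x 0 10 + x 1 10 + x 4 10 + x 5 10 = ka 6 + ka 11 :=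
      hx.ha 10 (by decide) (by decide)
    have A11 : x 0 11 + x 1 11 + x 4 11 + x 5 11 = ka 7 + ka 8 :=
      hx.ha 11 (by decide) (by decide)
    have A12 : x 0 12 + x 1 12 + x 4 12 + x 5 12 = ka 7 + ka 9 :=
      hx.ha 12 (by decide) (by decide)
    have A13 : x 0 13 + x 1 13 + x 4 13 + x 5 13 = ka 8 + ka 10 :=
      hx.ha 13 (by decide) (by decide)
    have A14 : x 0 14 + x 1 14 + x 4 14 + x 5 14 = ka 8 + ka 11 :=
      hx.ha 14 (by decide) (by decide)
    have A15 : x 0 15 + x 1 15 + x 4 15 + x 5 15 = ka 9 + ka 10 :=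
      hx.ha 15 (by decide) (by decide)
    have A9' : x 0 9 + x 1 9 + x 6 9 + x 7 9 = ka' 6 + ka' 10 := hx.ha' 9 (by decide) (by decide)
    have A10' : x 0 10 + x 1 10 + x 6 10 + x 7 10 = ka' 6 + ka' 11 :=
      hx.ha' 10 (by decide) (by decide)
    have A11' : x 0 11 + x 1 11 + x 6 11 + x 7 11 = ka' 7 + ka' 8 :=
      hx.ha' 11 (by decide) (by decide)
    have A12' : x 0 12 + x 1 12 + x 6 12 + x 7 12 = ka' 7 + ka' 9 :=
      hx.ha' 12 (by decide) (by decide)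
    have A13' : x 0 13 + x 1 13 + x 6 13 + x 7 13 = ka' 8 + ka' 10 :=
      hx.ha' 13 (by decide) (by decide)
    have A14' : x 0 14 + x 1 14 + x 6 14 + x 7 14 = ka' 8 + ka' 11 :=
      hx.ha' 14 (by decide) (by decide)
    have A15' : x 0 15 + x 1 15 + x 6 15 + x 7 15 = ka' 9 + ka' 10 :=
      hx.ha' 15 (by decide) (by decide)
    have B9 : x 2 9 + x 3 9 + x 4 9 + x 6 9 = kb 6 + kb 10 := hx.hb 9 (by decide) (by decide)
    have B10 : x 2 10 + x 3 10 + x 4 10 + x 6 10 = kb 6 + kb 11 :=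
      hx.hb 10 (by decide) (by decide)
    have B11 : x 2 11 + x 3 11 + x 4 11 + x 6 11 = kb 7 + kb 8 :=
      hx.hb 11 (by decide) (by decide)
    have B12 : x 2 12 + x 3 12 + x 4 12 + x 6 12 = kb 7 + kb 9 :=
      hx.hb 12 (by decide) (by decide)
    have B13 : x 2 13 + x 3 13 + x 4 13 + x 6 13 = kb 8 + kb 10 :=
      hx.hb 13 (by decide) (by decide)
    have B14 : x 2 14 + x 3 14 + x 4 14 + x 6 14 = kb 8 + kb 11 :=
      hx.hb 14 (by decide) (by decide)
    have B15 : x 2 15 + x 3 15 + x 4 15 + x 6 15 = kb 9 + kb 10 :=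
      hx.hb 15 (by decide) (by decide)
    have B9' : x 2 9 + x 3 9 + x 5 9 + x 7 9 = kb' 6 + kb' 10 := hx.hb' 9 (by decide) (by decide)
    have B10' : x 2 10 + x 3 10 + x 5 10 + x 7 10 = kb' 6 + kb' 11 :=
      hx.hb' 10 (by decide) (by decide)
    have B11' : x 2 11 + x 3 11 + x 5 11 + x 7 11 = kb' 7 + kb' 8 :=
      hx.hb' 11 (by decide) (by decide)
    have B12' : x 2 12 + x 3 12 + x 5 12 + x 7 12 = kb' 7 + kb' 9 :=
      hx.hb' 12 (by decide) (by decide)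
    have B13' : x 2 13 + x 3 13 + x 5 13 + x 7 13 = kb' 8 + kb' 10 :=
      hx.hb' 13 (by decide) (by decide)
    have B14' : x 2 14 + x 3 14 + x 5 14 + x 7 14 = kb' 8 + kb' 11 :=
      hx.hb' 14 (by decide) (by decide)
    have B15' : x 2 15 + x 3 15 + x 5 15 + x 7 15 = kb' 9 + kb' 10 :=
      hx.hb' 15 (by decide) (by decide)
    rw [x013, x113, zero_add, zero_add] at A13 A13'
    rw [x014, x114, zero_add, zero_add] at A14 A14'
    rw [x015, x115, zero_add, zero_add] at A15 A15'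
    rw [x213, x313, zero_add, zero_add] at B13 B13'
    rw [x214, x314, zero_add, zero_add] at B14 B14'
    rw [x215, x315, zero_add, zero_add] at B15 B15'
    rw [a0] at A13
    rw [a0'] at A13'
    rw [a1] at A14
    rw [a1'] at A14'
    rw [a2] at A15
    rw [a2'] at A15'
    rw [b0] at B13
    rw [b0'] at B13'
    rw [b1] at B14
    rw [b1'] at B14'
    rw [b2] at B15
    rw [b2'] at B15'
    have hone : ∀ a b : ZMod 2, a + b = 1 → (1 + a) + (1 + b) = 1 := by decide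
    obtain ⟨p, hp⟩ : ∃ p : ℤ, p = min (m 0 : ℤ) (m 1) := ⟨_, rfl⟩
    obtain ⟨q, hq⟩ : ∃ q : ℤ, q = min (m 2 : ℤ) (m 3) := ⟨_, rfl⟩
    have p0 : p ≤ m 0 := by rw [hp]; exact min_le_left _ _
    have p1 : p ≤ m 1 := by rw [hp]; exact min_le_right _ _
    have q2 : q ≤ m 2 := by rw [hq]; exact min_le_left _ _
    have q3 : q ≤ m 3 := by rw [hq]; exact min_le_right _ _
    have pn : 0 ≤ p := by rw [hp]; exact le_min (by linarith [hm' 0]) (by linarith [hm' 1])
    have qn : 0 ≤ q := by rw [hq]; exact le_min (by linarith [hm' 2]) (by linarith [hm' 3])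
    have hcpq : c ≤ p * q := by
      have l02 : c ≤ m 0 * m 2 := hL (0, 2) (by decide)
      have l03 : c ≤ m 0 * m 3 := hL (0, 3) (by decide)
      have l12 : c ≤ m 1 * m 2 := hL (1, 2) (by decide)
      have l13 : c ≤ m 1 * m 3 := hL (1, 3) (by decide)
      rw [hp, hq]
      rcases min_choice (m 0 : ℤ) (m 1) with e | e <;>
      rcases min_choice (m 2 : ℤ) (m 3) with e' | e' <;> rw [e, e']
      · exact l02
      · exact l03
      · exact l12
      · exact l13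
    have pA9 : α0 + α1 = 1 → p ≤ WW m x 9 + WW m x 10 ∨ 2 * h ≤ WW m x 9 + WW m x 10 := by
      intro ht
      have r1 := zpair _ _ _ _ _ _ _ _ A9 A10 A13 A14 ht
      have r2 := zpair _ _ _ _ _ _ _ _ A9' A10' A13' A14' (hone _ _ ht)
      exact pairA m x 9 10 p h p0 p1 h4 h5 h6 h7 (by linear_combination r1)
        (by linear_combination r2)
    have pB9 : β0 + β1 = 1 → q ≤ WW m x 9 + WW m x 10 ∨ 2 * h ≤ WW m x 9 + WW m x 10 := by
      intro ht
      have r1 := zpair _ _ _ _ _ _ _ _ B9 B10 B13 B14 ht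
      have r2 := zpair _ _ _ _ _ _ _ _ B9' B10' B13' B14' (hone _ _ ht)
      exact pairB m x 9 10 q h q2 q3 h4 h5 h6 h7 (by linear_combination r1)
        (by linear_combination r2)
    have pA11 : α0 + α2 = 1 → p ≤ WW m x 11 + WW m x 12 ∨ 2 * h ≤ WW m x 11 + WW m x 12 := by
      intro ht
      have r1 := zpair _ _ _ _ _ _ _ _ A11 A12 (A13.trans (add_comm _ _))
        (A15.trans (add_comm _ _)) ht
      have r2 := zpair _ _ _ _ _ _ _ _ A11' A12' (A13'.trans (add_comm _ _))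
        (A15'.trans (add_comm _ _)) (hone _ _ ht)
      exact pairA m x 11 12 p h p0 p1 h4 h5 h6 h7 (by linear_combination r1)
        (by linear_combination r2)
    have pB11 : β0 + β2 = 1 → q ≤ WW m x 11 + WW m x 12 ∨ 2 * h ≤ WW m x 11 + WW m x 12 := by
      intro ht
      have r1 := zpair _ _ _ _ _ _ _ _ B11 B12 (B13.trans (add_comm _ _))
        (B15.trans (add_comm _ _)) ht
      have r2 := zpair _ _ _ _ _ _ _ _ B11' B12' (B13'.trans (add_comm _ _))
        (B15'.trans (add_comm _ _)) (hone _ _ ht)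
      exact pairB m x 11 12 q h q2 q3 h4 h5 h6 h7 (by linear_combination r1)
        (by linear_combination r2)
    obtain ⟨μ, hμ⟩ : ∃ p : ℤ, p = min (m 9 : ℤ) (m 10) := ⟨_, rfl⟩
    have μ9 : μ ≤ m 9 := by rw [hμ]; exact min_le_left _ _
    have μ10 : μ ≤ m 10 := by rw [hμ]; exact min_le_right _ _
    have μn : 0 ≤ μ := by rw [hμ]; exact le_min (by linarith [hm' 9]) (by linarith [hm' 10])
    have r10_16 : cR ≤ m 10 * m 16 :=
      le_trans r10_13 (mul_le_mul_of_nonneg_left hM3 (by linarith [hm' 10]))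
    have r12_16 : cR ≤ m 12 * m 16 :=
      le_trans r12_13 (mul_le_mul_of_nonneg_left hM3 (by linarith [hm' 12]))
    have μR : cR ≤ μ * m 16 := by
      rw [hμ]
      rcases min_choice (m 9 : ℤ) (m 10) with e | e <;> rw [e]
      · exact r9_16
      · exact r10_16
    obtain ⟨ν, hν⟩ : ∃ p : ℤ, p = min (m 11 : ℤ) (m 12) := ⟨_, rfl⟩
    have ν11 : ν ≤ m 11 := by rw [hν]; exact min_le_left _ _
    have ν12 : ν ≤ m 12 := by rw [hν]; exact min_le_right _ _
    have νn : 0 ≤ ν := by rw [hν]; exact le_min (by linarith [hm' 11]) (by linarith [hm' 12])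
    have νR : cR ≤ ν * m 16 := by
      rw [hν]
      rcases min_choice (m 11 : ℤ) (m 12) with e | e <;> rw [e]
      · exact r11_16
      · exact r12_16
    have E9 : H * (WW m x 13 + WW m x 14 + WW m x 15 + WW m x 16) +
      h * ((m 14 : ℤ) + m 15 + m 16 - 3 * H) + (m 9 * WW m x 9 + m 10 * WW m x 10)
        ≤ (Yw m x : ℤ) := by linarith
    have E11 : H * (WW m x 13 + WW m x 14 + WW m x 15 + WW m x 16) +
      h * ((m 14 : ℤ) + m 15 + m 16 - 3 * H) + (m 11 * WW m x 11 + m 12 * WW m x 12)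
        ≤ (Yw m x : ℤ) := by linarith
    rcases le_or_gt h (WW m x 9 + WW m x 10) with hb | hs
    · exact heavy hH1 hh1 hM1 hM2 hM3 hHlam E9 (W0 9) (W0 10) μn μ9 μ10 r13_16 μR hF1 hb hY2
    rcases le_or_gt h (WW m x 11 + WW m x 12) with hb' | hs'
    · exact heavy hH1 hh1 hM1 hM2 hM3 hHlam E11 (W0 11) (W0 12) νn ν11 ν12 r13_16 νR hF1 hb' hY2
    have pA9' : α0 + α1 = 1 → p ≤ WW m x 9 + WW m x 10 := by
      intro ht
      rcases pA9 ht with h' | h' <;> linarith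
    have pB9' : β0 + β1 = 1 → q ≤ WW m x 9 + WW m x 10 := by
      intro ht
      rcases pB9 ht with h' | h' <;> linarith
    have pA11' : α0 + α2 = 1 → p ≤ WW m x 11 + WW m x 12 := by
      intro ht
      rcases pA11 ht with h' | h' <;> linarith
    have pB11' : β0 + β2 = 1 → q ≤ WW m x 11 + WW m x 12 := by
      intro ht
      rcases pB11 ht with h' | h' <;> linarith
    obtain ⟨T1, _, T3, T4⟩ := T
    have hph : p < h := by
      rcases T3 with t | t
      · linarith [pA9' t]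
      · linarith [pA11' t]
    have hqh : q < h := by
      rcases T4 with t | t
      · linarith [pB9' t]
      · linarith [pB11' t]
    exact light hH1 hh1 hM1 hM2 hM3 hHlam E9 E2 (W0 9) (W0 10) μn μ9 μ10 μR r14_15 hF1 hF3 pn qn
      hcpq hph hqh (T1.imp pA9' pB9') hY1 hY2

end Pool.Agent.Helper69.KC
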